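import Mathlib
import Pool.Agent.H8.Itin

namespace Pool.Agent.Results.MP_415091_an.Aperiodic

open Set Filter Topology Pool.Agent.H8.Itin

/-- The piecewise linear model of the right hand side. -/
noncomputable def tr (s : ℝ × ℝ × ℝ) : ℝ := max 0 s.1 - max (-1) (max (s.2.2 - 3) s.2.1)

/-- The piecewise linear model map. -/
noncomputable def T (s : ℝ × ℝ × ℝ) : ℝ × ℝ × ℝ := (s.2.1, s.2.2, tr s)

lemma mx2 {p n : ℝ} (h1 : 0 ≤ n) (h2 : p ≤ n) (h : n = 0 ∨ n = p) : max 0 p = n := by
  refine le_antisymm (max_le h1 h2) ?_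
  rcases h with h | h <;> simp [h]

lemma mx3 {r q d : ℝ} (h1 : -1 ≤ d) (h2 : r - 3 ≤ d) (h3 : q ≤ d) (h : d = -1 ∨ d = r - 3 ∨ d = q) :
    max (-1) (max (r - 3) q) = d := by
  refine le_antisymm (max_le h1 (max_le h2 h3)) ?_
  rcases h with h | h | h <;> simp [h]

lemma stepT {p q r e : ℝ} (n d : ℝ) (h1 : max 0 p = n) (h2 : max (-1) (max (r - 3) q) = d)
    (h : e = n - d) : T (p, q, r) = (q, r, e) := by
  simp only [T, tr, h1, h2, h]

lemma loopA (x : ℝ) (hl : 1457 / 500 ≤ x) (hr : x ≤ 1461 / 500) :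
    T^[14] (x, 3 - x, -x) = ((61 + (-21) * x), (-87 + (29) * x), (-35 + (13) * x)) ∧
    T^[15] (x, 3 - x, -x) = ((-87 + (29) * x), (-35 + (13) * x), (38 + (-13) * x)) ∧
    T^[16] (x, 3 - x, -x) = ((-35 + (13) * x), (38 + (-13) * x), (35 + (-13) * x)) := by
  have h0 : T^[0] (x, 3 - x, -x) = ((0 + (1) * x), (3 + (-1) * x), (0 + (-1) * x)) :=
    Prod.ext (by simp) (Prod.ext (by simp; ring) (by simp))
  have h1 : T^[1] (x, 3 - x, -x) = ((3 + (-1) * x), (0 + (-1) * x), (-3 + (2) * x)) :=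
    (Function.iterate_succ_apply' T 0 _).trans (by
      rw [h0]
      exact stepT (0 + (1) * x) (3 + (-1) * x) (mx2 (by linarith) (by linarith) (Or.inr rfl))
        (mx3 (by linarith) (by linarith) (by linarith) (Or.inr (Or.inr rfl))) (by ring))
  have h2 : T^[2] (x, 3 - x, -x) = ((0 + (-1) * x), (-3 + (2) * x), (9 + (-3) * x)) :=
    (Function.iterate_succ_apply' T 1 _).trans (by
      rw [h1]
      exact stepT (3 + (-1) * x) (-6 + (2) * x) (mx2 (by linarith) (by linarith) (Or.inr rfl))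
        (mx3 (by linarith) (by linarith) (by linarith) (Or.inr (Or.inl (by ring)))) (by ring))
  have h3 : T^[3] (x, 3 - x, -x) = ((-3 + (2) * x), (9 + (-3) * x), (3 + (-2) * x)) :=
    (Function.iterate_succ_apply' T 2 _).trans (by
      rw [h2]
      exact stepT (0 : ℝ) (-3 + (2) * x) (mx2 (by linarith) (by linarith) (Or.inl rfl))
        (mx3 (by linarith) (by linarith) (by linarith) (Or.inr (Or.inr rfl))) (by ring))
  have h4 : T^[4] (x, 3 - x, -x) = ((9 + (-3) * x), (3 + (-2) * x), (-12 + (5) * x)) :=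
    (Function.iterate_succ_apply' T 3 _).trans (by
      rw [h3]
      exact stepT (-3 + (2) * x) (9 + (-3) * x) (mx2 (by linarith) (by linarith) (Or.inr rfl))
        (mx3 (by linarith) (by linarith) (by linarith) (Or.inr (Or.inr rfl))) (by ring))
  have h5 : T^[5] (x, 3 - x, -x) = ((3 + (-2) * x), (-12 + (5) * x), (24 + (-8) * x)) :=
    (Function.iterate_succ_apply' T 4 _).trans (by
      rw [h4]
      exact stepT (9 + (-3) * x) (-15 + (5) * x) (mx2 (by linarith) (by linarith) (Or.inr rfl))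
        (mx3 (by linarith) (by linarith) (by linarith) (Or.inr (Or.inl (by ring)))) (by ring))
  have h6 : T^[6] (x, 3 - x, -x) = ((-12 + (5) * x), (24 + (-8) * x), (12 + (-5) * x)) :=
    (Function.iterate_succ_apply' T 5 _).trans (by
      rw [h5]
      exact stepT (0 : ℝ) (-12 + (5) * x) (mx2 (by linarith) (by linarith) (Or.inl rfl))
        (mx3 (by linarith) (by linarith) (by linarith) (Or.inr (Or.inr rfl))) (by ring))
  have h7 : T^[7] (x, 3 - x, -x) = ((24 + (-8) * x), (12 + (-5) * x), (-36 + (13) * x)) :=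
    (Function.iterate_succ_apply' T 6 _).trans (by
      rw [h6]
      exact stepT (-12 + (5) * x) (24 + (-8) * x) (mx2 (by linarith) (by linarith) (Or.inr rfl))
        (mx3 (by linarith) (by linarith) (by linarith) (Or.inr (Or.inr rfl))) (by ring))
  have h8 : T^[8] (x, 3 - x, -x) = ((12 + (-5) * x), (-36 + (13) * x), (25 + (-8) * x)) :=
    (Function.iterate_succ_apply' T 7 _).trans (by
      rw [h7]
      exact stepT (24 + (-8) * x) (-1 : ℝ) (mx2 (by linarith) (by linarith) (Or.inr rfl))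
        (mx3 (by linarith) (by linarith) (by linarith) (Or.inl rfl)) (by ring))
  have h9 : T^[9] (x, 3 - x, -x) = ((-36 + (13) * x), (25 + (-8) * x), (36 + (-13) * x)) :=
    (Function.iterate_succ_apply' T 8 _).trans (by
      rw [h8]
      exact stepT (0 : ℝ) (-36 + (13) * x) (mx2 (by linarith) (by linarith) (Or.inl rfl))
        (mx3 (by linarith) (by linarith) (by linarith) (Or.inr (Or.inr rfl))) (by ring))
  have h10 : T^[10] (x, 3 - x, -x) = ((25 + (-8) * x), (36 + (-13) * x), (-61 + (21) * x)) :=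
    (Function.iterate_succ_apply' T 9 _).trans (by
      rw [h9]
      exact stepT (-36 + (13) * x) (25 + (-8) * x) (mx2 (by linarith) (by linarith) (Or.inr rfl))
        (mx3 (by linarith) (by linarith) (by linarith) (Or.inr (Or.inr rfl))) (by ring))
  have h11 : T^[11] (x, 3 - x, -x) = ((36 + (-13) * x), (-61 + (21) * x), (26 + (-8) * x)) :=
    (Function.iterate_succ_apply' T 10 _).trans (by
      rw [h10]
      exact stepT (25 + (-8) * x) (-1 : ℝ) (mx2 (by linarith) (by linarith) (Or.inr rfl))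
        (mx3 (by linarith) (by linarith) (by linarith) (Or.inl rfl)) (by ring))
  have h12 : T^[12] (x, 3 - x, -x) = ((-61 + (21) * x), (26 + (-8) * x), (61 + (-21) * x)) :=
    (Function.iterate_succ_apply' T 11 _).trans (by
      rw [h11]
      exact stepT (0 : ℝ) (-61 + (21) * x) (mx2 (by linarith) (by linarith) (Or.inl rfl))
        (mx3 (by linarith) (by linarith) (by linarith) (Or.inr (Or.inr rfl))) (by ring))
  have h13 : T^[13] (x, 3 - x, -x) = ((26 + (-8) * x), (61 + (-21) * x), (-87 + (29) * x)) :=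
    (Function.iterate_succ_apply' T 12 _).trans (by
      rw [h12]
      exact stepT (-61 + (21) * x) (26 + (-8) * x) (mx2 (by linarith) (by linarith) (Or.inr rfl))
        (mx3 (by linarith) (by linarith) (by linarith) (Or.inr (Or.inr rfl))) (by ring))
  have h14 : T^[14] (x, 3 - x, -x) = ((61 + (-21) * x), (-87 + (29) * x), (-35 + (13) * x)) :=
    (Function.iterate_succ_apply' T 13 _).trans (by
      rw [h13]
      exact stepT (26 + (-8) * x) (61 + (-21) * x) (mx2 (by linarith) (by linarith) (Or.inr rfl))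
        (mx3 (by linarith) (by linarith) (by linarith) (Or.inr (Or.inr rfl))) (by ring))
  have h15 : T^[15] (x, 3 - x, -x) = ((-87 + (29) * x), (-35 + (13) * x), (38 + (-13) * x)) :=
    (Function.iterate_succ_apply' T 14 _).trans (by
      rw [h14]
      exact stepT (0 : ℝ) (-38 + (13) * x) (mx2 (by linarith) (by linarith) (Or.inl rfl))
        (mx3 (by linarith) (by linarith) (by linarith) (Or.inr (Or.inl (by ring)))) (by ring))
  have h16 : T^[16] (x, 3 - x, -x) = ((-35 + (13) * x), (38 + (-13) * x), (35 + (-13) * x)) :=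
    (Function.iterate_succ_apply' T 15 _).trans (by
      rw [h15]
      exact stepT (0 : ℝ) (-35 + (13) * x) (mx2 (by linarith) (by linarith) (Or.inl rfl))
        (mx3 (by linarith) (by linarith) (by linarith) (Or.inr (Or.inr rfl))) (by ring))
  exact ⟨h14, h15, h16⟩

lemma loopB (x : ℝ) (hl : 2953 / 1000 ≤ x) (hr : x ≤ 1479 / 500) :
    T^[14] (x, 3 - x, -x) = ((99 + (-34) * x), (-163 + (55) * x), (65 + (-21) * x)) ∧
    T^[15] (x, 3 - x, -x) = ((-163 + (55) * x), (65 + (-21) * x), (-62 + (21) * x)) ∧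
    T^[16] (x, 3 - x, -x) = ((65 + (-21) * x), (-62 + (21) * x), (-65 + (21) * x)) := by
  have h0 : T^[0] (x, 3 - x, -x) = ((0 + (1) * x), (3 + (-1) * x), (0 + (-1) * x)) :=
    Prod.ext (by simp) (Prod.ext (by simp; ring) (by simp))
  have h1 : T^[1] (x, 3 - x, -x) = ((3 + (-1) * x), (0 + (-1) * x), (-3 + (2) * x)) :=
    (Function.iterate_succ_apply' T 0 _).trans (by
      rw [h0]
      exact stepT (0 + (1) * x) (3 + (-1) * x) (mx2 (by linarith) (by linarith) (Or.inr rfl))
        (mx3 (by linarith) (by linarith) (by linarith) (Or.inr (Or.inr rfl))) (by ring))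
  have h2 : T^[2] (x, 3 - x, -x) = ((0 + (-1) * x), (-3 + (2) * x), (9 + (-3) * x)) :=
    (Function.iterate_succ_apply' T 1 _).trans (by
      rw [h1]
      exact stepT (3 + (-1) * x) (-6 + (2) * x) (mx2 (by linarith) (by linarith) (Or.inr rfl))
        (mx3 (by linarith) (by linarith) (by linarith) (Or.inr (Or.inl (by ring)))) (by ring))
  have h3 : T^[3] (x, 3 - x, -x) = ((-3 + (2) * x), (9 + (-3) * x), (3 + (-2) * x)) :=
    (Function.iterate_succ_apply' T 2 _).trans (by
      rw [h2]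
      exact stepT (0 : ℝ) (-3 + (2) * x) (mx2 (by linarith) (by linarith) (Or.inl rfl))
        (mx3 (by linarith) (by linarith) (by linarith) (Or.inr (Or.inr rfl))) (by ring))
  have h4 : T^[4] (x, 3 - x, -x) = ((9 + (-3) * x), (3 + (-2) * x), (-12 + (5) * x)) :=
    (Function.iterate_succ_apply' T 3 _).trans (by
      rw [h3]
      exact stepT (-3 + (2) * x) (9 + (-3) * x) (mx2 (by linarith) (by linarith) (Or.inr rfl))
        (mx3 (by linarith) (by linarith) (by linarith) (Or.inr (Or.inr rfl))) (by ring))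
  have h5 : T^[5] (x, 3 - x, -x) = ((3 + (-2) * x), (-12 + (5) * x), (24 + (-8) * x)) :=
    (Function.iterate_succ_apply' T 4 _).trans (by
      rw [h4]
      exact stepT (9 + (-3) * x) (-15 + (5) * x) (mx2 (by linarith) (by linarith) (Or.inr rfl))
        (mx3 (by linarith) (by linarith) (by linarith) (Or.inr (Or.inl (by ring)))) (by ring))
  have h6 : T^[6] (x, 3 - x, -x) = ((-12 + (5) * x), (24 + (-8) * x), (12 + (-5) * x)) :=
    (Function.iterate_succ_apply' T 5 _).trans (by
      rw [h5]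
      exact stepT (0 : ℝ) (-12 + (5) * x) (mx2 (by linarith) (by linarith) (Or.inl rfl))
        (mx3 (by linarith) (by linarith) (by linarith) (Or.inr (Or.inr rfl))) (by ring))
  have h7 : T^[7] (x, 3 - x, -x) = ((24 + (-8) * x), (12 + (-5) * x), (-36 + (13) * x)) :=
    (Function.iterate_succ_apply' T 6 _).trans (by
      rw [h6]
      exact stepT (-12 + (5) * x) (24 + (-8) * x) (mx2 (by linarith) (by linarith) (Or.inr rfl))
        (mx3 (by linarith) (by linarith) (by linarith) (Or.inr (Or.inr rfl))) (by ring))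
  have h8 : T^[8] (x, 3 - x, -x) = ((12 + (-5) * x), (-36 + (13) * x), (63 + (-21) * x)) :=
    (Function.iterate_succ_apply' T 7 _).trans (by
      rw [h7]
      exact stepT (24 + (-8) * x) (-39 + (13) * x) (mx2 (by linarith) (by linarith) (Or.inr rfl))
        (mx3 (by linarith) (by linarith) (by linarith) (Or.inr (Or.inl (by ring)))) (by ring))
  have h9 : T^[9] (x, 3 - x, -x) = ((-36 + (13) * x), (63 + (-21) * x), (36 + (-13) * x)) :=
    (Function.iterate_succ_apply' T 8 _).trans (by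
      rw [h8]
      exact stepT (0 : ℝ) (-36 + (13) * x) (mx2 (by linarith) (by linarith) (Or.inl rfl))
        (mx3 (by linarith) (by linarith) (by linarith) (Or.inr (Or.inr rfl))) (by ring))
  have h10 : T^[10] (x, 3 - x, -x) = ((63 + (-21) * x), (36 + (-13) * x), (-99 + (34) * x)) :=
    (Function.iterate_succ_apply' T 9 _).trans (by
      rw [h9]
      exact stepT (-36 + (13) * x) (63 + (-21) * x) (mx2 (by linarith) (by linarith) (Or.inr rfl))
        (mx3 (by linarith) (by linarith) (by linarith) (Or.inr (Or.inr rfl))) (by ring))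
  have h11 : T^[11] (x, 3 - x, -x) = ((36 + (-13) * x), (-99 + (34) * x), (64 + (-21) * x)) :=
    (Function.iterate_succ_apply' T 10 _).trans (by
      rw [h10]
      exact stepT (63 + (-21) * x) (-1 : ℝ) (mx2 (by linarith) (by linarith) (Or.inr rfl))
        (mx3 (by linarith) (by linarith) (by linarith) (Or.inl rfl)) (by ring))
  have h12 : T^[12] (x, 3 - x, -x) = ((-99 + (34) * x), (64 + (-21) * x), (99 + (-34) * x)) :=
    (Function.iterate_succ_apply' T 11 _).trans (by
      rw [h11]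
      exact stepT (0 : ℝ) (-99 + (34) * x) (mx2 (by linarith) (by linarith) (Or.inl rfl))
        (mx3 (by linarith) (by linarith) (by linarith) (Or.inr (Or.inr rfl))) (by ring))
  have h13 : T^[13] (x, 3 - x, -x) = ((64 + (-21) * x), (99 + (-34) * x), (-163 + (55) * x)) :=
    (Function.iterate_succ_apply' T 12 _).trans (by
      rw [h12]
      exact stepT (-99 + (34) * x) (64 + (-21) * x) (mx2 (by linarith) (by linarith) (Or.inr rfl))
        (mx3 (by linarith) (by linarith) (by linarith) (Or.inr (Or.inr rfl))) (by ring))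
  have h14 : T^[14] (x, 3 - x, -x) = ((99 + (-34) * x), (-163 + (55) * x), (65 + (-21) * x)) :=
    (Function.iterate_succ_apply' T 13 _).trans (by
      rw [h13]
      exact stepT (64 + (-21) * x) (-1 : ℝ) (mx2 (by linarith) (by linarith) (Or.inr rfl))
        (mx3 (by linarith) (by linarith) (by linarith) (Or.inl rfl)) (by ring))
  have h15 : T^[15] (x, 3 - x, -x) = ((-163 + (55) * x), (65 + (-21) * x), (-62 + (21) * x)) :=
    (Function.iterate_succ_apply' T 14 _).trans (by
      rw [h14]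
      exact stepT (0 : ℝ) (62 + (-21) * x) (mx2 (by linarith) (by linarith) (Or.inl rfl))
        (mx3 (by linarith) (by linarith) (by linarith) (Or.inr (Or.inl (by ring)))) (by ring))
  have h16 : T^[16] (x, 3 - x, -x) = ((65 + (-21) * x), (-62 + (21) * x), (-65 + (21) * x)) :=
    (Function.iterate_succ_apply' T 15 _).trans (by
      rw [h15]
      exact stepT (0 : ℝ) (65 + (-21) * x) (mx2 (by linarith) (by linarith) (Or.inl rfl))
        (mx3 (by linarith) (by linarith) (by linarith) (Or.inr (Or.inr rfl))) (by ring))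
  exact ⟨h14, h15, h16⟩

/-- Coordinatewise closeness. -/
def Cl (η : ℝ) (s t : ℝ × ℝ × ℝ) : Prop :=
  |s.1 - t.1| ≤ η ∧ |s.2.1 - t.2.1| ≤ η ∧ |s.2.2 - t.2.2| ≤ η

/-- The map attached to a third order recurrence. -/
def F (g : ℝ × ℝ × ℝ → ℝ) (s : ℝ × ℝ × ℝ) : ℝ × ℝ × ℝ := (s.2.1, s.2.2, g s)

lemma tr_lip {η : ℝ} {s t : ℝ × ℝ × ℝ} (h : Cl η s t) : |tr s - tr t| ≤ 2 * η := by
  obtain ⟨x, y, z⟩ := h
  have h0 : 0 ≤ η := (abs_nonneg _).trans x
  have q1 := (abs_max_sub_max_le_max (0 : ℝ) s.1 0 t.1).trans (max_le (by simpa using h0) x)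
  have q2 := (abs_max_sub_max_le_max (s.2.2 - 3) s.2.1 (t.2.2 - 3) t.2.1).trans
    (max_le (by simpa using z) y)
  have q3 := (abs_max_sub_max_le_max (-1 : ℝ) (max (s.2.2 - 3) s.2.1) (-1)
    (max (t.2.2 - 3) t.2.1)).trans (max_le (by simpa using h0) q2)
  rw [abs_le] at q1 q3 ⊢
  simp only [tr]
  exact ⟨by linarith [q1.1, q3.2], by linarith [q1.2, q3.1]⟩

section
variable {g : ℝ × ℝ × ℝ → ℝ} {ε : ℝ} (h0 : 0 ≤ ε) (h1 : ε ≤ 1 / 10 ^ 12)
  (hg : ∀ s, |g s - tr s| ≤ ε)
include h0 h1 hg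

lemma shadow (s t : ℝ × ℝ × ℝ) (hst : Cl ε s t) (n : ℕ) (hn : n ≤ 16) :
    Cl (1 / 1000) ((F g)^[n] s) (T^[n] t) := by
  have main : Cl (3 ^ n * ε) ((F g)^[n] s) (T^[n] t) := by
    induction n with
    | zero => simpa using hst
    | succ n ih =>
      have ih' := ih (by omega)
      have hb := hg ((F g)^[n] s)
      have q := tr_lip ih'
      rw [Function.iterate_succ_apply', Function.iterate_succ_apply']
      obtain ⟨x, y, z⟩ := ih'
      have p1 : (1 : ℝ) ≤ 3 ^ n := one_le_pow₀ (by norm_num)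
      have p2 : ε ≤ 3 ^ n * ε := by nlinarith
      have p3 : 3 ^ (n + 1) * ε = 3 * (3 ^ n * ε) := by ring
      refine ⟨by simp only [F, T]; linarith, by simp only [F, T]; linarith, ?_⟩
      simp only [F, T]
      rw [abs_le] at q hb ⊢
      exact ⟨by linarith [hb.1, q.1], by linarith [hb.2, q.2]⟩
  have small : 3 ^ n * ε ≤ 1 / 1000 := by
    have : (3 : ℝ) ^ n ≤ 3 ^ 16 := pow_le_pow_right₀ (by norm_num) hn
    calc 3 ^ n * ε ≤ 3 ^ 16 * (1 / 10 ^ 12) := by gcongr
      _ ≤ 1 / 1000 := by norm_num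
  exact ⟨main.1.trans small, main.2.1.trans small, main.2.2.trans small⟩

lemma loop (s : ℝ × ℝ × ℝ) (ha : |s.2.1 - (3 - s.1)| ≤ ε) (hc : |s.2.2 + s.1| ≤ ε)
    {a b c d e : ℝ}
    (e1 : T^[14] (s.1, 3 - s.1, -s.1) = (a, b, c))
    (e2 : T^[15] (s.1, 3 - s.1, -s.1) = (b, c, d))
    (e3 : T^[16] (s.1, 3 - s.1, -s.1) = (c, d, e))
    (m1 : a ≤ -(1 / 10)) (m2 : b ≤ -(1 / 4)) (m3 : 14 / 5 ≤ c) (m4 : d ≤ 1) :
    |((F g)^[16] s).2.1 - (3 - ((F g)^[16] s).1)| ≤ ε ∧
      |((F g)^[16] s).2.2 + ((F g)^[16] s).1| ≤ ε ∧ |((F g)^[16] s).1 - c| ≤ 1 / 1000 := by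
  have hst : Cl ε s (s.1, 3 - s.1, -s.1) := ⟨by simpa using h0, ha, by simpa using hc⟩
  obtain ⟨x1, y1, z1⟩ := shadow h0 h1 hg s _ hst 14 (by omega)
  obtain ⟨x2, y2, z2⟩ := shadow h0 h1 hg s _ hst 15 (by omega)
  obtain ⟨x3, -, -⟩ := shadow h0 h1 hg s _ hst 16 le_rfl
  rw [e1] at x1 y1 z1
  rw [e2] at x2 y2 z2
  rw [e3] at x3
  rw [abs_le] at x1 y1 z1 x2 y2 z2
  have k1 : (F g)^[15] s = F g ((F g)^[14] s) := Function.iterate_succ_apply' _ _ _
  have k2 : (F g)^[16] s = F g ((F g)^[15] s) := Function.iterate_succ_apply' _ _ _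
  refine ⟨?_, ?_, x3⟩
  · have := hg ((F g)^[14] s)
    rw [tr, max_eq_left (by linarith [x1.2]), mx3 (d := ((F g)^[14] s).2.2 - 3) (by linarith [z1.1])
      le_rfl (by linarith [z1.1, y1.2]) (Or.inr (Or.inl rfl))] at this
    rw [k2, k1]
    simp only [F]
    convert this using 2
    ring
  · have := hg ((F g)^[15] s)
    rw [tr, max_eq_left (by linarith [x2.2]), mx3 (d := ((F g)^[15] s).2.1) (by linarith [y2.1])
      (by linarith [z2.2, y2.1]) le_rfl (Or.inr (Or.inr rfl))] at this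
    rw [k2]
    simp only [F]
    convert this using 2
    ring

lemma grow (s : ℝ × ℝ × ℝ) (hs : Cl 4 s 0) (n : ℕ) : Cl (2 ^ n * 8 - 4) ((F g)^[n] s) 0 := by
  induction n with
  | zero => norm_num; exact hs
  | succ n ih =>
    have q := tr_lip ih
    have hb := hg ((F g)^[n] s)
    have t0 : tr 0 = 0 := by simp [tr]
    rw [Function.iterate_succ_apply']
    obtain ⟨x, y, z⟩ := ih
    have p1 : (1 : ℝ) ≤ 2 ^ n := one_le_pow₀ (by norm_num)
    have p2 : ε ≤ 1 := h1.trans (by norm_num)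
    simp only [Prod.fst_zero, Prod.snd_zero, sub_zero, t0] at x y z q
    simp only [Cl, F, Prod.fst_zero, Prod.snd_zero, sub_zero, pow_succ]
    refine ⟨by linarith, by linarith, ?_⟩
    rw [abs_le] at q hb ⊢
    exact ⟨by linarith [hb.1, q.1], by linarith [hb.2, q.2]⟩

theorem chaos (hc : Continuous g) : ∃ Y : ℕ → ℝ,
    (∀ n, Y (n + 3) = g (Y n, Y (n + 1), Y (n + 2))) ∧ (∀ n, Y n ≤ 2 ^ 16 * 8) ∧
    ∀ k, 1 ≤ k → ∀ N, ∃ n, N ≤ n ∧ Y n ≤ 1461 / 500 ∧ 2953 / 1000 ≤ Y (n + 16 * k) := by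
  have hF : Continuous (F g) := by
    unfold F
    fun_prop
  let lo : Bool → ℝ := fun i => if i then 2953 / 1000 else 1457 / 500
  let hi : Bool → ℝ := fun i => if i then 1479 / 500 else 1461 / 500
  let P : Set (ℝ × ℝ × ℝ) := {s | |s.2.1 - (3 - s.1)| ≤ ε ∧ |s.2.2 + s.1| ≤ ε}
  have hP : IsClosed P := IsClosed.inter
    (isClosed_le (f := fun s : ℝ × ℝ × ℝ => |s.2.1 - (3 - s.1)|) (by fun_prop) continuous_const)
    (isClosed_le (f := fun s : ℝ × ℝ × ℝ => |s.2.2 + s.1|) (by fun_prop) continuous_const)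
  have hA : ∀ s ∈ P, s.1 ∈ Icc (lo false) (hi false) → (F g)^[16] s ∈ P ∧
      |((F g)^[16] s).1 - (-35 + 13 * s.1)| ≤ 1 / 1000 := by
    intro s hs hx
    obtain ⟨x1, x2⟩ : 1457 / 500 ≤ s.1 ∧ s.1 ≤ 1461 / 500 := hx
    obtain ⟨e1, e2, e3⟩ := loopA _ x1 x2
    have := loop h0 h1 hg s hs.1 hs.2 e1 e2 e3
      (by linarith) (by linarith) (by linarith) (by linarith)
    exact ⟨⟨this.1, this.2.1⟩, this.2.2⟩
  have hB : ∀ s ∈ P, s.1 ∈ Icc (lo true) (hi true) → (F g)^[16] s ∈ P ∧
      |((F g)^[16] s).1 - (65 + (-21) * s.1)| ≤ 1 / 1000 := by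
    intro s hs hx
    obtain ⟨x1, x2⟩ : 2953 / 1000 ≤ s.1 ∧ s.1 ≤ 1479 / 500 := hx
    obtain ⟨e1, e2, e3⟩ := loopB _ x1 x2
    have := loop h0 h1 hg s hs.1 hs.2 e1 e2 e3
      (by linarith) (by linarith) (by linarith) (by linarith)
    exact ⟨⟨this.1, this.2.1⟩, this.2.2⟩
  have hle : ∀ i, (29 / 10 : ℝ) ≤ lo i ∧ lo i ≤ hi i ∧ hi i ≤ 297 / 100 := by
    intro i
    cases i <;> norm_num [lo, hi]
  classical
  let σ : ℕ → Bool := fun n => decide (IsSquare n)
  obtain ⟨s, hs⟩ := itin (fun _ : Bool => (F g)^[16]) (fun i => hF.iterate _) P hP (fun s => s.1)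
    (by fun_prop) lo hi (29 / 10) (297 / 100) hle
    (by
      intro i s hs hx
      cases i
      · exact (hA s hs hx).1
      · exact (hB s hs hx).1)
    (by
      intro i
      cases i
      · refine Or.inr ⟨fun s hs hx => ?_, fun s hs hx => ?_⟩
        · have := abs_le.1 (hA s hs ⟨hx.ge, hx.le.trans (hle _).2.1⟩).2
          have hx' : s.1 = 1457 / 500 := hx
          show ((F g)^[16] s).1 ≤ _
          linarith [this.2]
        · have := abs_le.1 (hA s hs ⟨(hle _).2.1.trans hx.ge, hx.le⟩).2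
          have hx' : s.1 = 1461 / 500 := hx
          show _ ≤ ((F g)^[16] s).1
          linarith [this.1]
      · refine Or.inl ⟨fun s hs hx => ?_, fun s hs hx => ?_⟩
        · have := abs_le.1 (hB s hs ⟨hx.ge, hx.le.trans (hle _).2.1⟩).2
          have hx' : s.1 = 2953 / 1000 := hx
          show _ ≤ ((F g)^[16] s).1
          linarith [this.1]
        · have := abs_le.1 (hB s hs ⟨(hle _).2.1.trans hx.ge, hx.le⟩).2
          have hx' : s.1 = 1479 / 500 := hx
          show ((F g)^[16] s).1 ≤ _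
          linarith [this.2])
    (fun t => (t, 3 - t, -t)) (by fun_prop) 2 3
    (fun t _ => ⟨by simpa using h0, by simpa using h0⟩)
    (by norm_num) (by norm_num) σ
  have hal : ∀ n, along (fun _ : Bool => (F g)^[16]) σ n s = (F g)^[16 * n] s := by
    intro n
    induction n with
    | zero => rfl
    | succ n ih =>
      have : along (fun _ : Bool => (F g)^[16]) σ (n + 1) s = (F g)^[16]
          (along (fun _ : Bool => (F g)^[16]) σ n s) := rfl
      rw [this, ih, ← Function.iterate_add_apply]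
      congr 1
      ring
  simp only [hal] at hs
  have e1 : ∀ n, ((F g)^[n + 1] s).1 = ((F g)^[n] s).2.1 := fun n => by
    rw [Function.iterate_succ_apply']; rfl
  have e2 : ∀ n, ((F g)^[n + 2] s).1 = ((F g)^[n] s).2.2 := fun n => by
    simp only [Function.iterate_succ_apply', F]
  refine ⟨fun n => ((F g)^[n] s).1, fun n => ?_, fun n => ?_, fun k hk N => ?_⟩
  · simp only [e1 n, e2 n]
    simp only [Function.iterate_succ_apply', F]
  · obtain ⟨⟨p1, p3⟩, p2⟩ := hs (n / 16)
    have hl := hle (σ (n / 16))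
    have p4 : ε ≤ 1 := h1.trans (by norm_num)
    rw [abs_le] at p1 p3
    have := (grow h0 h1 hg ((F g)^[16 * (n / 16)] s) (by
      simp only [Cl, Prod.fst_zero, Prod.snd_zero, sub_zero, abs_le]
      exact ⟨⟨by linarith [p2.1, hl.1], by linarith [p2.2, hl.2.2]⟩,
        ⟨by linarith [p2.2, hl.2.2, p1.1], by linarith [p2.1, hl.1, p1.2]⟩,
        ⟨by linarith [p2.2, hl.2.2, p3.1], by linarith [p2.1, hl.1, p3.2]⟩⟩) (n % 16)).1
    rw [← Function.iterate_add_apply, show n % 16 + 16 * (n / 16) = n by omega] at this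
    have h2 : (2 : ℝ) ^ (n % 16) ≤ 2 ^ 16 := pow_le_pow_right₀ (by norm_num) (by omega)
    simp only [Prod.fst_zero, sub_zero, abs_le] at this
    linarith [this.2]
  · obtain ⟨n, hn, s1, s2⟩ := sparse k hk N
    refine ⟨16 * n, by omega, ?_, ?_⟩
    · have := (hs n).2.2
      simp only [σ, s1, decide_false] at this
      exact this
    · have := (hs (n + k)).2.1
      simp only [σ, s2, decide_true] at this
      simp only [show 16 * n + 16 * k = 16 * (n + k) by ring]
      exact this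

end

lemma exp_max (L a b : ℝ) (hL : 0 < L) :
    Real.exp (L * max a b) = max (Real.exp (L * a)) (Real.exp (L * b)) := by
  rcases le_total a b with h | h
  · rw [max_eq_right h, max_eq_right (Real.exp_le_exp.2 (by gcongr))]
  · rw [max_eq_left h, max_eq_left (Real.exp_le_exp.2 (by gcongr))]

theorem result (A : ℝ) (hA : 0 < A) (hA' : A ≤ Real.exp (-10 ^ 13)) :
    ∃ x : ℕ → ℝ, (∀ n, 0 < x n) ∧
    (∀ n, x (n + 3) = (1 + x n) / (A + A ^ 3 * x (n + 2) + x (n + 1))) ∧
    (∃ M, ∀ n, x n ≤ M) ∧ (∀ e : ℝ, ¬ Tendsto x atTop (𝓝 e)) ∧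
    ∀ (p : ℕ → ℝ) (k : ℕ), 1 ≤ k → (∀ n, p (n + k) = p n) →
      ¬ Tendsto (fun n => x n - p n) atTop (𝓝 0) := by
  have hL : 10 ^ 13 ≤ -Real.log A := by linarith [(Real.log_le_iff_le_exp hA).2 hA']
  set L := -Real.log A with hLd
  have hL0 : 0 < L := lt_of_lt_of_le (by norm_num) hL
  have eA : Real.exp (L * (-1)) = A := by rw [hLd, neg_mul_neg, mul_one, Real.exp_log hA]
  have eB : ∀ c : ℝ, Real.exp (L * (c - 3)) = A ^ 3 * Real.exp (L * c) := by
    intro c
    rw [← eA, ← Real.exp_nat_mul, ← Real.exp_add]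
    congr 1
    push_cast
    ring
  let num : ℝ × ℝ × ℝ → ℝ := fun s => 1 + Real.exp (L * s.1)
  let den : ℝ × ℝ × ℝ → ℝ := fun s => A + A ^ 3 * Real.exp (L * s.2.2) + Real.exp (L * s.2.1)
  have hn : ∀ s, 0 < num s := fun s => by simp only [num]; positivity
  have hd : ∀ s, 0 < den s := fun s => by simp only [den]; positivity
  let g : ℝ × ℝ × ℝ → ℝ := fun s => Real.log (num s / den s) / L
  have hc : Continuous g := by
    refine Continuous.div_const (Continuous.log (Continuous.div ?_ ?_ fun s => (hd s).ne')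
      fun s => (div_pos (hn s) (hd s)).ne') L
    · simp only [num]; fun_prop
    · simp only [den]; fun_prop
  have hg : ∀ s, |g s - tr s| ≤ 3 / L := by
    rintro ⟨a, b, c⟩
    have n0 := exp_max L 0 a hL0
    have d0 := exp_max L (-1) (max (c - 3) b) hL0
    rw [mul_zero, Real.exp_zero] at n0
    rw [exp_max L (c - 3) b hL0, eA, eB] at d0
    set n := max 0 a
    set d := max (-1) (max (c - 3) b)
    have pa := Real.exp_pos (L * a)
    have pb := Real.exp_pos (L * b)
    have pc : 0 < A ^ 3 * Real.exp (L * c) := by positivity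
    have E3 : Real.exp (L * n) ≤ num (a, b, c) := by
      rw [n0]; simp only [num]; exact max_le (by linarith) (by linarith)
    have E4 : num (a, b, c) ≤ 4 * Real.exp (L * n) := by
      rw [n0]; simp only [num]
      linarith [le_max_left 1 (Real.exp (L * a)), le_max_right 1 (Real.exp (L * a))]
    have E5 : Real.exp (L * d) ≤ den (a, b, c) := by
      rw [d0]; simp only [den]
      exact max_le (by linarith) (max_le (by linarith) (by linarith))
    have E6 : den (a, b, c) ≤ 4 * Real.exp (L * d) := by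
      rw [d0]; simp only [den]
      linarith [le_max_left A (max (A ^ 3 * Real.exp (L * c)) (Real.exp (L * b))),
        le_max_right A (max (A ^ 3 * Real.exp (L * c)) (Real.exp (L * b))),
        le_max_left (A ^ 3 * Real.exp (L * c)) (Real.exp (L * b)),
        le_max_right (A ^ 3 * Real.exp (L * c)) (Real.exp (L * b))]
    have l4 : Real.log 4 ≤ 3 := by
      linarith [Real.log_le_sub_one_of_pos (show (0 : ℝ) < 4 by norm_num)]
    have u1 := Real.log_le_log (Real.exp_pos _) E3
    have u2 := Real.log_le_log (hn _) E4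
    have u3 := Real.log_le_log (Real.exp_pos _) E5
    have u4 := Real.log_le_log (hd _) E6
    rw [Real.log_mul (by norm_num) (Real.exp_pos _).ne'] at u2 u4
    rw [Real.log_exp] at u1 u2 u3 u4
    have : g (a, b, c) - tr (a, b, c) = (Real.log (num (a, b, c)) - Real.log (den (a, b, c)) -
        L * (n - d)) / L := by
      simp only [g, tr]
      rw [Real.log_div (hn _).ne' (hd _).ne']
      field_simp
      rfl
    rw [this, abs_div, abs_of_pos hL0]
    gcongr
    exact abs_le.2 ⟨by linarith, by linarith⟩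
  obtain ⟨Y, y1, y2, y3⟩ := chaos (ε := 3 / L) (by positivity)
    (by rw [div_le_div_iff₀ hL0 (by positivity)]; linarith) hg hc
  have key : ∀ (p : ℕ → ℝ) (k : ℕ), 1 ≤ k → (∀ n, p (n + k) = p n) →
      ¬ Tendsto (fun n => Real.exp (L * Y n) - p n) atTop (𝓝 0) := by
    have hlt : Real.exp (L * (1461 / 500)) < Real.exp (L * (2953 / 1000)) :=
      Real.exp_lt_exp.2 (by nlinarith)
    refine not_asym (fun n => Real.exp (L * Y n)) _ (sub_pos.2 hlt) 16 fun k hk N => ?_
    obtain ⟨n, h1, h2, h3⟩ := y3 k hk N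
    have a1 : Real.exp (L * Y n) ≤ Real.exp (L * (1461 / 500)) := Real.exp_le_exp.2 (by gcongr)
    have a2 : Real.exp (L * (2953 / 1000)) ≤ Real.exp (L * Y (n + 16 * k)) :=
      Real.exp_le_exp.2 (by gcongr)
    exact ⟨n, h1, le_abs.2 (Or.inl (by linarith))⟩
  refine ⟨fun n => Real.exp (L * Y n), fun n => Real.exp_pos _, fun n => ?_,
    ⟨Real.exp (L * (2 ^ 16 * 8)), fun n => Real.exp_le_exp.2 (by gcongr; exact y2 n)⟩,
    fun e h => ?_, key⟩
  · simp only [y1 n, g]
    rw [mul_div_cancel₀ _ hL0.ne', Real.exp_log (div_pos (hn _) (hd _))]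
  · exact key (fun _ => e) 1 le_rfl (fun _ => rfl) (tendsto_sub_nhds_zero_iff.2 h)

end Pool.Agent.Results.MP_415091_an.Aperiodic
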